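import Pool.Agent.REV.StmtsV3

/-!
# Squad REV, row VA3: the alternative `y = R` or `inf y = 0`, n = 3
-/

set_option autoImplicit false

namespace Pool.Agent.REV.H44

open Pool.Agent.REV Set MeasureTheory Filter
open scoped Topology

/-- the algebra at the end. -/
theorem fin_alg3 {L a R : ℝ} (ha : 0 < a) (hR : 0 < R) (haR : a ≤ R)
    (h1 : a ≤ L * R * a ^ 2)
    (h2 : L * (a * (R ^ 2 - a ^ 2) + R * a ^ 2) ≤ R) :
    a = R := by
  set μ : ℝ := L * (R * a) with hμ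
  have hμ1 : 1 ≤ μ := by
    have h3 : a * 1 ≤ a * μ := by
      rw [hμ, mul_one]
      calc a ≤ L * R * a ^ 2 := h1
        _ = a * (L * (R * a)) := by ring
    exact le_of_mul_le_mul_left h3 ha
  have h4 : R * (L * (a * (R ^ 2 - a ^ 2) + R * a ^ 2)) ≤ R * R :=
    mul_le_mul_of_nonneg_left h2 hR.le
  have h5 : R * (L * (a * (R ^ 2 - a ^ 2) + R * a ^ 2)) = μ * (R ^ 2 - a ^ 2 + R * a) := by
    rw [hμ]
    ring
  have h6 : 0 ≤ R ^ 2 - a ^ 2 + R * a := by
    have h7 : a ^ 2 ≤ R ^ 2 := pow_le_pow_left₀ ha.le haR _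
    have h8 : 0 ≤ R * a := by positivity
    linarith
  have h7 : 1 * (R ^ 2 - a ^ 2 + R * a) ≤ μ * (R ^ 2 - a ^ 2 + R * a) :=
    mul_le_mul_of_nonneg_right hμ1 h6
  have h8 : R * a ≤ a * a := by nlinarith
  exact le_antisymm haR (le_of_mul_le_mul_right h8 ha)

/-- row VA3 -/
theorem va3 (vm3 : Vm3Stmt) (vk3 : Vk3Stmt) (vq3 : Vq3Stmt) (vl3 : Vl3Stmt) : Va3Stmt := by
  intro C σ R F s y D hC hσ hR hL
  by_cases hcase : ∀ ε : ℝ, 0 < ε → ∃ b : ℝ, 0 < b ∧ y b < ε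
  · exact Or.inr hcase
  left
  push Not at hcase
  obtain ⟨ε, hε, hεy⟩ := hcase
  have hc3 : 0 ≤ c3 3 C := by
    unfold c3
    apply div_nonneg hC.le
    norm_num
  have hJ : 0 ≤ J0 3 := by
    unfold J0
    apply intervalIntegral.integral_nonneg (by norm_num)
    intro u hu
    apply Real.rpow_nonneg
    nlinarith [hu.1, hu.2]
  have hyR : ∀ b : ℝ, 0 < b → y b ≤ R := by
    intro b hb
    refine ge_of_tendsto hL.top ?_
    filter_upwards [eventually_ge_atTop b] with b' hb'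
    exact hL.mono hb (lt_of_lt_of_le hb hb') hb'
  -- the infimum
  have hbdd : BddBelow (y '' Ioi 0) := ⟨0, by
    rintro _ ⟨b, hb, rfl⟩
    exact hL.nonneg b hb⟩
  set a : ℝ := sInf (y '' Ioi 0) with ha
  have hlim : Tendsto y (𝓝[>] 0) (𝓝 a) := MonotoneOn.tendsto_nhdsGT hL.mono hbdd
  have hay : ∀ b : ℝ, 0 < b → a ≤ y b := fun b hb => csInf_le hbdd ⟨b, hb, rfl⟩
  have hεa : ε ≤ a := by
    apply le_csInf
    · exact ⟨y 1, 1, by simp, rfl⟩
    · rintro _ ⟨b, hb, rfl⟩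
      exact hεy b hb
  have ha0 : 0 < a := lt_of_lt_of_le hε hεa
  have haR : a ≤ R := (hay 1 one_pos).trans (hyR 1 one_pos)
  -- the sequence
  have hcnt : (D ∪ Inv.inv '' D).Countable := hL.cnt.union (hL.cnt.image _)
  have hdense := hcnt.dense_compl ℝ
  have hex : ∀ j : ℕ, ∃ u : ℝ, 0 < u ∧ u < 1 / ((j : ℝ) + 1) ∧ u ∉ D ∧ 1 / u ∉ D := by
    intro j
    obtain ⟨u, hu, hu'⟩ := hdense.exists_mem_open (isOpen_Ioo (a := (0 : ℝ))
      (b := 1 / ((j : ℝ) + 1))) (nonempty_Ioo.2 (by positivity))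
    refine ⟨u, hu'.1, hu'.2, fun h => hu (Or.inl h), fun h => hu (Or.inr ⟨1 / u, h, ?_⟩)⟩
    rw [one_div, inv_inv]
  choose u hu0 hu1 huD huD' using hex
  have hu : Tendsto u atTop (𝓝 0) := by
    refine squeeze_zero (fun j => (hu0 j).le) (fun j => (hu1 j).le) ?_
    exact tendsto_one_div_add_atTop_nhds_zero_nat
  have huGT : Tendsto u atTop (𝓝[>] 0) :=
    tendsto_nhdsWithin_iff.2 ⟨hu, Eventually.of_forall fun j => hu0 j⟩
  have hyu : Tendsto (fun j => y (u j)) atTop (𝓝 a) := hlim.comp huGT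
  have hyu' : Tendsto (fun j => y (1 / u j)) atTop (𝓝 R) := by
    refine hL.top.comp ?_
    have h1 : Tendsto (fun j => (u j)⁻¹) atTop atTop := tendsto_inv_nhdsGT_zero.comp huGT
    refine h1.congr fun j => ?_
    rw [one_div]
  -- inequality (I)
  have hI : ∀ i j : ℕ, y (u j) ≤ σ * σ * C * c3 3 C * J0 3 * R *
      (y (u i) ^ 2 + u j / u i * R ^ 2) := by
    intro i j
    have h1 : ∀ k, yb 3 (F k 2) (u j) ≤ s k 0 * s k 1 * C * c3 3 C * J0 3 * RA 3 (F k 1) 1 *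
        (yb 3 (F k 0) (u i) ^ 2 + u j / u i * RA 3 (F k 0) 1 ^ 2) := by
      intro k
      have h2 := vk3 C (s k 0) (s k 1) (F k 0) (F k 1) (F k 2) hC (hL.spos k 0) (hL.spos k 1)
        (hL.prf k 0) (hL.prf k 1) (hL.prf k 2) (hL.st k 0 (by omega)) (hL.st k 1 le_rfl) (u j)
        (hu0 j)
      have h3 := (vq3 (F k 0) (u j) (hL.prf k 0) (hu0 j)).2.1 (u i) (hu0 i)
      refine h2.trans (mul_le_mul_of_nonneg_left h3 ?_)
      have h4 := (vm3 (F k 1) (hL.prf k 1)).2.2.1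
      have h5 := (hL.spos k 0).le
      have h6 := (hL.spos k 1).le
      positivity
    have h2 := hL.ylim 2 le_rfl (u j) (hu0 j) (huD j)
    have h3 := hL.ylim 0 (by omega) (u i) (hu0 i) (huD i)
    have hR1 := hL.rlim 1 (by omega)
    have hR0 := hL.rlim 0 (by omega)
    have hs0 := hL.slim 0 (by omega)
    have hs1 := hL.slim 1 le_rfl
    refine le_of_tendsto_of_tendsto' h2 ?_ h1
    exact (((((hs0.mul hs1).mul_const C).mul_const (c3 3 C)).mul_const (J0 3)).mul hR1).mul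
      ((h3.pow 2).add ((hR0.pow 2).const_mul (u j / u i)))
  have hI2 : a ≤ (σ * σ * C * c3 3 C * J0 3) * R * a ^ 2 := by
    have h1 : ∀ i, a ≤ σ * σ * C * c3 3 C * J0 3 * R * y (u i) ^ 2 := by
      intro i
      have h2 : Tendsto (fun j => σ * σ * C * c3 3 C * J0 3 * R *
          (y (u i) ^ 2 + u j / u i * R ^ 2)) atTop
          (𝓝 (σ * σ * C * c3 3 C * J0 3 * R * (y (u i) ^ 2 + 0 / u i * R ^ 2))) :=
        (((hu.div_const (u i)).mul_const (R ^ 2)).const_add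
          (y (u i) ^ 2)).const_mul (σ * σ * C * c3 3 C * J0 3 * R)
      have h3 := le_of_tendsto_of_tendsto' hyu h2 (hI i)
      rwa [zero_div, zero_mul, add_zero] at h3
    have h2 : Tendsto (fun i => σ * σ * C * c3 3 C * J0 3 * R * y (u i) ^ 2)
        atTop (𝓝 (σ * σ * C * c3 3 C * J0 3 * R * a ^ 2)) :=
      (hyu.pow 2).const_mul (σ * σ * C * c3 3 C * J0 3 * R)
    exact ge_of_tendsto' h2 h1
  -- inequality (II)
  have hII : ∀ j : ℕ, σ * σ * C * c3 3 C * J0 3 *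
      (y (u j) * (y (1 / u j) ^ 2 - y (u j) ^ 2) +
        y (1 / u j) * y (u j) ^ 2) ≤ R := by
    intro j
    have hle : u j ≤ 1 / u j := by
      have h1 : u j ≤ 1 := by
        refine (hu1 j).le.trans ?_
        rw [div_le_one (by positivity)]
        have : (0 : ℝ) ≤ j := Nat.cast_nonneg j
        linarith
      rw [le_div_iff₀ (hu0 j)]
      nlinarith [hu0 j]
    have h1 : ∀ k, s k 0 * s k 1 * C * c3 3 C * J0 3 *
        (yb 3 (F k 1) (u j) *
          (yb 3 (F k 0) (1 / u j) ^ 2 - yb 3 (F k 0) (u j) ^ 2) +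
        yb 3 (F k 1) (1 / u j) * yb 3 (F k 0) (u j) ^ 2) ≤ RA 3 (F k 2) 1 := by
      intro k
      have h2 := vl3 C (s k 0) (s k 1) (F k 0) (F k 1) (F k 2) hC (hL.spos k 0) (hL.spos k 1)
        (hL.prf k 0) (hL.prf k 1) (hL.prf k 2) (hL.st k 0 (by omega)) (hL.st k 1 le_rfl) (u j)
        (1 / u j) (hu0 j) hle
      rw [one_div_one_div] at h2
      exact h2
    have hp : 0 < 1 / u j := one_div_pos.2 (hu0 j)
    have a1 := hL.ylim 1 (by omega) (u j) (hu0 j) (huD j)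
    have a2 := hL.ylim 0 (by omega) (1 / u j) hp (huD' j)
    have a3 := hL.ylim 0 (by omega) (u j) (hu0 j) (huD j)
    have a4 := hL.ylim 1 (by omega) (1 / u j) hp (huD' j)
    have hs0 := hL.slim 0 (by omega)
    have hs1 := hL.slim 1 le_rfl
    refine le_of_tendsto_of_tendsto' ?_ (hL.rlim 2 le_rfl) h1
    exact ((((hs0.mul hs1).mul_const C).mul_const (c3 3 C)).mul_const (J0 3)).mul
      ((a1.mul ((a2.pow 2).sub (a3.pow 2))).add
        (a4.mul (a3.pow 2)))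
  have hII2 : (σ * σ * C * c3 3 C * J0 3) *
      (a * (R ^ 2 - a ^ 2) + R * a ^ 2) ≤ R := by
    have h1 : Tendsto (fun j => σ * σ * C * c3 3 C * J0 3 *
        (y (u j) * (y (1 / u j) ^ 2 - y (u j) ^ 2) +
        y (1 / u j) * y (u j) ^ 2)) atTop
        (𝓝 ((σ * σ * C * c3 3 C * J0 3) *
          (a * (R ^ 2 - a ^ 2) + R * a ^ 2))) :=
      ((hyu.mul ((hyu'.pow 2).sub (hyu.pow 2))).add
        (hyu'.mul (hyu.pow 2))).const_mul _
    exact le_of_tendsto' h1 hII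
  have haR' : a = R := fin_alg3 ha0 hR haR hI2 hII2
  intro b hb
  exact le_antisymm (hyR b hb) (haR' ▸ hay b hb)

end Pool.Agent.REV.H44
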